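import Pool.Agent.Q35.DP.Plan

/-!
# Project DP, job MAP
-/

set_option autoImplicit false

namespace Pool.Agent.Q35.DP

open Polynomial Pool.Agent.Y166.DP

section
variable {A B : Type} [Field A] [Field B]

/-- evaluation of polynomials in two variables -/
noncomputable def ev2 (f : A →+* B) (x y : B) : A[X][X] →+* B :=
  eval₂RingHom (eval₂RingHom f x) y

/-- the cubic polynomial -/
noncomputable def qq (lam : A) : A[X] := X * (X - C 1) * (X - C lam)

theorem qq_natDegree (lam : A) : (qq lam).natDegree = 3 := by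
  unfold qq
  rw [natDegree_mul (mul_ne_zero X_ne_zero (X_sub_C_ne_zero 1)) (X_sub_C_ne_zero lam),
    natDegree_mul X_ne_zero (X_sub_C_ne_zero 1), natDegree_X, natDegree_X_sub_C,
    natDegree_X_sub_C]

theorem qq_ne (lam : A) : qq lam ≠ 0 := by
  intro h
  have := qq_natDegree lam
  rw [h, natDegree_zero] at this
  omega

/-- the equation -/
noncomputable def WW (lam : A) : A[X][X] := X ^ 2 - C (qq lam)

theorem WW_monic (lam : A) : (WW lam).Monic := monic_X_pow_sub_C _ two_ne_zero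

theorem WW_natDegree (lam : A) : (WW lam).natDegree = 2 := natDegree_X_pow_sub_C

theorem ev2_zero_iff (f : A →+* B) (x y : B) (htr : ∀ p : A[X], eval₂ f x p = 0 → p = 0)
    (lam : A) (h : y ^ 2 = x * (x - 1) * (x - f lam)) (P : A[X][X]) :
    ev2 f x y P = 0 ↔ P %ₘ WW lam = 0 := by
  have hW : ev2 f x y (WW lam) = 0 := by
    unfold ev2 WW qq
    simp [eval₂_mul, h]
  have hP : ev2 f x y P = ev2 f x y (P %ₘ WW lam) := by
    conv_lhs => rw [← modByMonic_add_div P (WW lam)]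
    rw [map_add, map_mul, hW, zero_mul, add_zero]
  rw [hP]
  constructor
  swap
  · intro h0
    rw [h0, map_zero]
  intro h0
  obtain ⟨R, hR⟩ : ∃ R, R = P %ₘ WW lam := ⟨_, rfl⟩
  rw [← hR] at h0 ⊢
  have hdeg : R.natDegree ≤ 1 := by
    have h1 := natDegree_modByMonic_lt P (WW_monic lam) (by
      intro h1
      have := WW_natDegree lam
      rw [h1, natDegree_one] at this
      omega)
    rw [WW_natDegree, ← hR] at h1
    omega
  have e1 := eq_X_add_C_of_natDegree_le_one hdeg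
  set b := R.coeff 1
  set a := R.coeff 0
  have h1 : eval₂ f x b * y + eval₂ f x a = 0 := by
    rw [e1] at h0
    simpa [ev2] using h0
  have h2 : eval₂ f x (b ^ 2 * qq lam - a ^ 2) = 0 := by
    have h3 : eval₂ f x (qq lam) = y ^ 2 := by
      rw [h]
      unfold qq
      simp [eval₂_mul]
    rw [eval₂_sub, eval₂_mul, eval₂_pow, eval₂_pow, h3]
    have h4 : eval₂ f x a = -(eval₂ f x b * y) := by linear_combination h1
    rw [h4]
    ring
  have h3 := sub_eq_zero.1 (htr _ h2)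
  have hb : b = 0 := by
    by_contra hb
    have h4 := congrArg natDegree h3
    rw [natDegree_mul (pow_ne_zero 2 hb) (qq_ne lam), natDegree_pow, natDegree_pow,
      qq_natDegree] at h4
    omega
  have ha : a = 0 := by
    rw [hb, zero_pow two_ne_zero, zero_mul] at h3
    exact pow_eq_zero_iff two_ne_zero |>.1 h3.symm
  rw [e1, ha, hb]
  simp

end

theorem stmMap : StmMap := by
  intro k₀ K₀ k K _ _ _ _ _ _ _ _ lam x₀ y₀ x y h₀ h
  obtain ⟨f₀, hf₀⟩ : ∃ f₀ : k₀ →+* K₀, f₀ = algebraMap k₀ K₀ := ⟨_, rfl⟩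
  obtain ⟨f, hf⟩ : ∃ f : k₀ →+* K, f = (algebraMap k K).comp (algebraMap k₀ k) := ⟨_, rfl⟩
  have htr₀ : ∀ p : k₀[X], eval₂ f₀ x₀ p = 0 → p = 0 := by
    intro p hp
    rw [hf₀] at hp
    exact transcendental_iff.1 h₀.tr p hp
  have htr : ∀ p : k₀[X], eval₂ f x p = 0 → p = 0 := by
    intro p hp
    have h1 : eval₂ (algebraMap k K) x (p.map (algebraMap k₀ k)) = 0 := by
      rw [eval₂_map, ← hf]
      exact hp
    have h2 := transcendental_iff.1 h.tr _ h1
    exact (Polynomial.map_eq_zero_iff (algebraMap k₀ k).injective).1 h2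
  have heq₀ : y₀ ^ 2 = x₀ * (x₀ - 1) * (x₀ - f₀ lam) := by
    rw [hf₀]
    exact h₀.eqn
  have heq : y ^ 2 = x * (x - 1) * (x - f lam) := by
    rw [hf]
    exact h.eqn
  obtain ⟨e₀, he₀⟩ : ∃ e₀, e₀ = ev2 f₀ x₀ y₀ := ⟨_, rfl⟩
  obtain ⟨e, he⟩ : ∃ e, e = ev2 f x y := ⟨_, rfl⟩
  have hker : ∀ P, e₀ P = 0 ↔ e P = 0 := by
    intro P
    rw [he₀, he]
    exact (ev2_zero_iff f₀ x₀ y₀ htr₀ lam heq₀ P).trans (ev2_zero_iff f x y htr lam heq P).symm
  have hsurj : Function.Surjective e₀.rangeRestrict := e₀.rangeRestrict_surjective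
  have hk : RingHom.ker e₀.rangeRestrict ≤ RingHom.ker e := by
    intro P hP
    rw [RingHom.mem_ker] at hP ⊢
    rw [← hker]
    have := congrArg Subtype.val hP
    simpa using this
  obtain ⟨g, hg⟩ : ∃ g : e₀.range →+* K, ∀ P, g (e₀.rangeRestrict P) = e P :=
    ⟨(RingHom.liftOfSurjective _ hsurj) ⟨e, hk⟩,
      RingHom.liftOfSurjective_comp_apply _ hsurj ⟨e, hk⟩⟩
  have hinj : Function.Injective g := by
    rw [injective_iff_map_eq_zero]
    intro r hr
    obtain ⟨P, rfl⟩ := hsurj r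
    rw [hg, ← hker] at hr
    ext
    simpa using hr
  have hx₀ : e₀ (C X) = x₀ := by rw [he₀]; simp [ev2]
  have hy₀ : e₀ X = y₀ := by rw [he₀]; simp [ev2]
  have hc₀ : ∀ c, e₀ (C (C c)) = algebraMap k₀ K₀ c := by intro c; rw [he₀]; simp [ev2, hf₀]
  have hx : e (C X) = x := by rw [he]; simp [ev2]
  have hy : e X = y := by rw [he]; simp [ev2]
  have hc : ∀ c, e (C (C c)) = algebraMap k K (algebraMap k₀ k c) := by
    intro c; rw [he]; simp [ev2, hf]
  have hadj : ∀ r ∈ Algebra.adjoin k₀ ({x₀, y₀} : Set K₀), ∃ P, e₀ P = r := by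
    intro r hr
    induction hr using Algebra.adjoin_induction with
    | mem z hz =>
      rcases hz with rfl | hz
      · exact ⟨_, hx₀⟩
      · rw [Set.mem_singleton_iff.1 hz]
        exact ⟨_, hy₀⟩
    | algebraMap c => exact ⟨_, hc₀ c⟩
    | add a b _ _ ha hb =>
      obtain ⟨P, rfl⟩ := ha
      obtain ⟨Q, rfl⟩ := hb
      exact ⟨P + Q, map_add _ _ _⟩
    | mul a b _ _ ha hb =>
      obtain ⟨P, rfl⟩ := ha
      obtain ⟨Q, rfl⟩ := hb
      exact ⟨P * Q, map_mul _ _ _⟩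
  haveI : IsFractionRing e₀.range K₀ := by
    refine IsFractionRing.of_field _ _ fun z => ?_
    have hz : z ∈ IntermediateField.adjoin k₀ ({x₀, y₀} : Set K₀) := by
      rw [h₀.gen]
      trivial
    rw [IntermediateField.mem_adjoin_iff_div] at hz
    obtain ⟨r, hr, s, hs, e1⟩ := hz
    obtain ⟨P, hP⟩ := hadj r hr
    obtain ⟨Q, hQ⟩ := hadj s hs
    exact ⟨⟨r, ⟨P, hP⟩⟩, ⟨s, ⟨Q, hQ⟩⟩, e1⟩
  have hl : ∀ P, IsFractionRing.lift hinj (e₀ P) = e P := by
    intro P
    have h1 : e₀ P = algebraMap e₀.range K₀ (e₀.rangeRestrict P) := rfl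
    rw [h1, IsFractionRing.lift_algebraMap, hg]
  refine ⟨IsFractionRing.lift hinj, ?_, ?_, ?_⟩
  · rw [← hx₀, hl, hx]
  · rw [← hy₀, hl, hy]
  · intro c
    rw [← hc₀, hl, hc]

end Pool.Agent.Q35.DP
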