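import Pool.Agent.Q35.DP.Plan

/-!
# Project DP, job NOONE
-/

set_option autoImplicit false

namespace Pool.Agent.Q35.DP

open FF Pool.Agent.W603.LV Pool.Agent.TH145.GH Pool.Agent.Y166.DP

theorem no1 : StmDel → StmNo1 := by
  intro hD k K _ _ _ _ _ _ lam x y h f P₀ h0 hreg
  classical
  obtain ⟨δ, -, -, hδ, hv⟩ := hD k K lam x y h
  have hf0 : f ≠ 0 := by
    rintro rfl
    rw [P₀.ord_zero] at h0
    omega
  have htr : Transcendental k f := P₀.transcendental_of_ord_ne (by omega)
  have hP0 : P₀.ord (δ f) = -2 := by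
    have := (ord_der P₀ hδ (f := f) (by omega)).2
    rw [hv, h0] at this
    omega
  have hP : ∀ P, P ≠ P₀ → P.ord (δ f) = 0 := by
    intro P hne
    obtain ⟨c, hc⟩ := exists_const P (hreg P hne)
    obtain ⟨g, hg⟩ : ∃ g, g = f - algebraMap k K c := ⟨_, rfl⟩
    rw [← hg] at hc
    have hg0 : g ≠ 0 := by
      intro e
      apply htr
      rw [hg] at e
      rw [sub_eq_zero.1 e]
      exact isAlgebraic_algebraMap c
    have hg1 := hc.resolve_left hg0
    have hgP0 : -1 ≤ P₀.ord g := by
      have h1 : Ge P₀ (-1) f := Or.inr (by omega)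
      have h2 : Ge P₀ (-1) (algebraMap k K c) := (Ge.const (P := P₀) c).mono (by norm_num)
      have h3 := h1.sub h2
      rw [← hg] at h3
      exact h3.resolve_left hg0
    have hgreg : ∀ Q, Q ≠ P₀ → 0 ≤ Q.ord g := by
      intro Q hQ
      have h3 := (hreg Q hQ).sub (Ge.const (P := Q) c)
      rw [← hg] at h3
      exact h3.resolve_left hg0
    obtain ⟨T, hT⟩ : ∃ T : Finset (Place k K), ∀ Q, Q.ord g ≠ 0 → Q ∈ T :=
      ⟨(finite_support (k := k) g).toFinset, fun Q hQ => by simpa using hQ⟩
    have hs := sum_ord_finset (k := k) g (insert P₀ (insert P T)) (fun Q hQ => by simp [hT Q hQ])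
    have h5 : ∑ Q ∈ ({P₀, P} : Finset (Place k K)), Q.ord g ≤
        ∑ Q ∈ insert P₀ (insert P T), Q.ord g := by
      apply Finset.sum_le_sum_of_subset_of_nonneg
      · intro Q hQ
        simp only [Finset.mem_insert, Finset.mem_singleton] at hQ ⊢
        tauto
      · intro Q _ hQ
        apply hgreg
        rintro rfl
        simp at hQ
    rw [Finset.sum_pair (Ne.symm hne), hs] at h5
    have h6 : δ f = δ g := by
      rw [hg, map_sub, Derivation.map_algebraMap, sub_zero]
    have h7 := (ord_der P hδ (f := g) (by omega)).2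
    rw [hv] at h7
    rw [h6]
    omega
  have hs := sum_ord_finset (k := k) (δ f) {P₀} (fun P hPf => by
    by_contra hc
    rw [Finset.mem_singleton] at hc
    exact hPf (hP P hc))
  rw [Finset.sum_singleton] at hs
  omega

end Pool.Agent.Q35.DP
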